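import Pool.Agent.LibGD31.CH1

/-! `C^r` sizes. -/

open Filter Topology Set

namespace GD31

/-- `C^r` size: `disp F = F - id` is `C^r` and its derivatives of order `0, ..., r` are at most `s`
in absolute value. -/
structure SzC (r : ℕ) (s : ℝ) (F : Pm) : Prop where
  contDiff : ContDiff ℝ r (disp F)
  bound : ∀ i ≤ r, ∀ x, |iteratedDeriv i (disp F) x| ≤ s

theorem SzC.mono {r : ℕ} {s s' : ℝ} {F : Pm} (h : SzC r s F) (hs : s ≤ s') : SzC r s' F :=
  ⟨h.contDiff, fun i hi x => (h.bound i hi x).trans hs⟩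

theorem SzC.mono_order {r r' : ℕ} {s : ℝ} {F : Pm} (h : SzC r s F) (hr : r' ≤ r) : SzC r' s F :=
  ⟨h.contDiff.of_le (by exact_mod_cast hr), fun i hi x => h.bound i (hi.trans hr) x⟩

theorem SzC.nonneg {r : ℕ} {s : ℝ} {F : Pm} (h : SzC r s F) : 0 ≤ s :=
  (abs_nonneg _).trans (h.bound 0 (Nat.zero_le r) 0)

theorem SzC.one (r : ℕ) : SzC r 0 (1 : Pm) := by
  have e : disp (1 : Pm) = fun _ => (0 : ℝ) := by
    funext x
    simp [disp]
  refine ⟨by rw [e]; exact contDiff_const, fun i _ x => ?_⟩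
  rw [e, iteratedDeriv_const]
  split_ifs <;> simp

/-- The function `F` itself is `C^r`. -/
theorem SzC.contDiff_self {r : ℕ} {s : ℝ} {F : Pm} (h : SzC r s F) : ContDiff ℝ r (F : ℝ → ℝ) := by
  have e : (F : ℝ → ℝ) = fun x => x + disp F x := by
    funext x
    simp [disp]
  rw [e]
  exact contDiff_id.add h.contDiff

/-- The derivative of `F` is within `s` of `1`. -/
theorem SzC.deriv {r : ℕ} {s : ℝ} {F : Pm} (h : SzC r s F) (hr : 1 ≤ r) (x : ℝ) :
    |deriv (F : ℝ → ℝ) x - 1| ≤ s := by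
  have hd : Differentiable ℝ (disp F) := h.contDiff.differentiable (by
    have : r ≠ 0 := by omega
    exact_mod_cast this)
  have e : (F : ℝ → ℝ) = fun x => x + disp F x := by
    funext x
    simp [disp]
  have e1 : _root_.deriv (F : ℝ → ℝ) x = 1 + _root_.deriv (disp F) x := by
    rw [e, deriv_fun_add differentiableAt_fun_id (hd x), deriv_id'']
  rw [e1, add_sub_cancel_left, ← iteratedDeriv_one]
  exact h.bound 1 hr x

/-- `C²` size of the old library from the `C^r` size. -/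
theorem SzC.sz {r : ℕ} {s : ℝ} {F : Pm} (h : SzC r s F) (hr : 2 ≤ r) : Sz s F := by
  have hc : ContDiff ℝ 2 (disp F) := h.contDiff.of_le (by exact_mod_cast hr)
  obtain ⟨h1, h2, h3⟩ := ch1_deriv hc
  refine ⟨h1, fun x => ?_, fun x => ?_, fun x => ?_⟩
  · have := h.bound 0 (Nat.zero_le r) x
    rw [iteratedDeriv_zero] at this
    exact this
  · have := h.bound 1 (by omega) x
    rw [iteratedDeriv_one] at this
    rw [h2]
    exact this
  · have := h.bound 2 hr x
    rw [iteratedDeriv_succ, iteratedDeriv_one] at this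
    rw [h3]
    exact this

/-- From a smooth estimate at scale `l ≤ 1` to a `C^r` size. -/
theorem Nl.szC {k r : ℕ} {B l s : ℝ} {F : Pm} (h : Nl k B l (disp F)) (hk : r ≤ k) (hl : 0 < l)
    (hl1 : l ≤ 1) (hB : 0 ≤ B) (hs : B / l ^ r ≤ s) : SzC r s F := by
  have h2 : ((r : ℕ∞) : WithTop ℕ∞) ≤ ((⊤ : ℕ∞) : WithTop ℕ∞) := WithTop.coe_le_coe.2 le_top
  refine ⟨h.smooth.of_le h2, fun i hi x => (h.bound i (hi.trans hk) x).trans (le_trans ?_ hs)⟩
  exact div_le_div_of_nonneg_left hB (pow_pos hl r) (pow_le_pow_of_le_one hl.le hl1 hi)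

/-- `C^r` size of a glued permutation over any index type. -/
theorem IsGlue.szC {ι : Type*} {r : ℕ} {V : ι → Set ℝ} {F : ι → Pm} {H : Pm}
    (hd : Pairwise (fun i j => Disjoint (V i) (V j))) (hF : ∀ i, Supp (F i) (V i))
    (h : IsGlue V F H) (s : ι → ℝ) (hs : ∀ i, SzC r (s i) (F i)) (hsum : Summable s) :
    SzC r (∑' i, s i) H := by
  have e : disp H = fun x => ∑' i, disp (F i) x := by
    funext x
    by_cases hx : ∃ i, x ∈ V i
    · obtain ⟨i, hi⟩ := hx
      rw [tsum_eq_single i]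
      · rw [disp, disp, h.on i x hi]
      · intro j hj
        rw [disp, hF j x (fun hc => Set.disjoint_left.mp (hd hj) hc hi), sub_self]
    · push Not at hx
      rw [disp, h.off x hx, sub_self]
      symm
      have h0 : ∀ i, disp (F i) x = 0 := fun i => by
        rw [disp, hF i x (hx i), sub_self]
      simp only [h0, tsum_zero]
  have hf : ∀ i, ContDiff ℝ ((r : ℕ∞) : WithTop ℕ∞) (disp (F i)) := fun i => (hs i).contDiff
  have hb : ∀ (k : ℕ) (i : ι) (x : ℝ), (k : ℕ∞) ≤ r →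
      ‖iteratedFDeriv ℝ k (disp (F i)) x‖ ≤ s i := by
    intro k i x hk
    rw [norm_iteratedFDeriv_eq_norm_iteratedDeriv]
    exact (hs i).bound k (by exact_mod_cast hk) x
  refine ⟨?_, ?_⟩
  · rw [e]
    exact contDiff_tsum (v := fun _ => s) hf (fun _ _ => hsum) hb
  · intro k hk x
    rw [← Real.norm_eq_abs, ← norm_iteratedFDeriv_eq_norm_iteratedDeriv, e,
      iteratedFDeriv_tsum_apply (v := fun _ => s) hf (fun _ _ => hsum) hb (by exact_mod_cast hk)]
    exact tsum_of_norm_bounded hsum.hasSum (fun i => hb k i x (by exact_mod_cast hk))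

end GD31
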