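import Pool.Agent.LibGD31.CK

/-! # OS3: cut-off

Geometry (`x` base point, `w` window length): content `X = [x, x+w]`, kick window
`K = [x+w, x+2w]`, free room `[x+2w, x+3w]`, next window `X' = [x+3w, x+3w+w/4]`. -/

open Filter Topology Set

namespace GD31

/-! ### Helpers -/

private theorem cutR_scale {k : ℕ} {A l c : ℝ} {f : ℝ → ℝ} (h : Nl k A (l / c) f) (hc : 1 ≤ c)
    (hl : 0 < l) (hA : 0 ≤ A) : Nl k (c ^ k * A) l f := by
  refine ⟨h.smooth, fun i hi y => (h.bound i hi y).trans ?_⟩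
  have hc0 : 0 < c := by linarith
  have e : A / (l / c) ^ i = c ^ i * A / l ^ i := by
    rw [div_pow]
    field_simp
  rw [e]
  have h1 : c ^ i ≤ c ^ k := pow_le_pow_right₀ hc hi
  gcongr

private theorem cutR_const (k : ℕ) {B l : ℝ} (c : ℝ) (hl : 0 < l) (hB : |c| ≤ B) :
    Nl k B l (fun _ => c) := by
  refine ⟨contDiff_const, fun i _ y => ?_⟩
  have hB0 : 0 ≤ B := (abs_nonneg c).trans hB
  rcases Nat.eq_zero_or_pos i with h0 | h0
  · subst h0
    simpa using hB
  · have e : iteratedDeriv i (fun _ : ℝ => c) y = 0 := by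
      rw [iteratedDeriv_const]
      simp [h0.ne']
    rw [e, abs_zero]
    positivity

private theorem cutR_theta (n : ℕ) : ∃ C : ℝ, 1 ≤ C ∧ Nl (n + 2) C 1 Real.smoothTransition := by
  have hs : Sm Real.smoothTransition := Real.smoothTransition.contDiff
  have hd : Sm (deriv Real.smoothTransition) := (contDiff_infty_iff_deriv.1 hs).2
  have hc : HasCompactSupport (deriv Real.smoothTransition) := by
    refine HasCompactSupport.intro (K := Icc 0 1) isCompact_Icc fun y hy => ?_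
    rw [mem_Icc, not_and_or, not_le, not_le] at hy
    rcases hy with hy | hy
    · have e : Real.smoothTransition =ᶠ[𝓝 y] fun _ => 0 := by
        filter_upwards [eventually_lt_nhds hy] with z hz
        exact Real.smoothTransition.zero_of_nonpos hz.le
      rw [e.deriv_eq]
      simp
    · have e : Real.smoothTransition =ᶠ[𝓝 y] fun _ => 1 := by
        filter_upwards [eventually_gt_nhds hy] with z hz
        exact Real.smoothTransition.one_of_one_le hz.le
      rw [e.deriv_eq]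
      simp
  obtain ⟨C, hC1, hC⟩ := exists_Nl_of_compact (n + 1) hd hc
  refine ⟨C, hC1, Nl.of_deriv hs one_pos (fun y => ?_) (by simpa using hC)⟩
  rw [abs_of_nonneg (Real.smoothTransition.nonneg y)]
  exact (Real.smoothTransition.le_one y).trans hC1

/-- product with a function which vanishes off an interval -/
private theorem cutR_mul {k : ℕ} {A B l : ℝ} {f ζ : ℝ → ℝ} (hl : 0 < l) (hA : 0 ≤ A) (hB : 0 ≤ B)
    (hζ : Nl k B l ζ) (hf : Sm f) {p q p' q' : ℝ} (hp : p < p') (hq : q' < q)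
    (hb : ∀ i ≤ k, ∀ y ∈ Icc p q, |iteratedDeriv i f y| ≤ A / l ^ i)
    (hs : ∀ y, y ≤ p' → ζ y = 0) (hs' : ∀ y, q' ≤ y → ζ y = 0) :
    Nl k (2 ^ k * B * A) l (fun y => ζ y * f y) := by
  refine ⟨hζ.smooth.mul hf, fun i hi y => ?_⟩
  by_cases hy : y ∈ Icc p q
  · have h1 := norm_iteratedFDeriv_mul_le hζ.smooth hf y (n := i) (by exact_mod_cast le_top)
    simp only [norm_iteratedFDeriv_eq_norm_iteratedDeriv, Real.norm_eq_abs] at h1
    refine h1.trans ?_
    calc ∑ j ∈ Finset.range (i + 1), (i.choose j : ℝ) * |iteratedDeriv j ζ y| *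
          |iteratedDeriv (i - j) f y|
        ≤ ∑ j ∈ Finset.range (i + 1), (i.choose j : ℝ) * (B * A / l ^ i) := by
          refine Finset.sum_le_sum fun j hj => ?_
          have hj' : j ≤ i := Nat.lt_succ_iff.1 (Finset.mem_range.1 hj)
          have h2 := hζ.bound j (hj'.trans hi) y
          have h3 := hb (i - j) ((Nat.sub_le _ _).trans hi) y hy
          rw [mul_assoc]
          refine mul_le_mul_of_nonneg_left ?_ (Nat.cast_nonneg _)
          calc |iteratedDeriv j ζ y| * |iteratedDeriv (i - j) f y|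
              ≤ (B / l ^ j) * (A / l ^ (i - j)) :=
                mul_le_mul h2 h3 (abs_nonneg _) (by positivity)
            _ = B * A / l ^ i := by
                have h4 : l ^ i = l ^ j * l ^ (i - j) := by
                  rw [← pow_add]
                  congr 1
                  omega
                rw [h4]
                field_simp
      _ = 2 ^ i * (B * A / l ^ i) := by
          rw [← Finset.sum_mul]
          congr 1
          exact_mod_cast Nat.sum_range_choose i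
      _ ≤ 2 ^ k * (B * A / l ^ i) := by
          have h5 : (2 : ℝ) ^ i ≤ 2 ^ k := pow_le_pow_right₀ (by norm_num) hi
          gcongr
      _ = 2 ^ k * B * A / l ^ i := by ring
  · rw [mem_Icc, not_and_or, not_le, not_le] at hy
    have e : (fun y => ζ y * f y) =ᶠ[𝓝 y] fun _ => 0 := by
      rcases hy with hy | hy
      · filter_upwards [eventually_lt_nhds hy] with z hz
        rw [hs z (by linarith), zero_mul]
      · filter_upwards [eventually_gt_nhds hy] with z hz
        rw [hs' z (by linarith), zero_mul]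
    have e2 : iteratedDeriv i (fun y => ζ y * f y) y = 0 := by
      rw [e.iteratedDeriv_eq i, iteratedDeriv_const]
      simp
    rw [e2, abs_zero]
    positivity

/-- the smooth step: `0` left of `c`, `1` right of `c + h` -/
private noncomputable def cutR_st (c h : ℝ) : ℝ → ℝ := fun y => Real.smoothTransition (1 / h * y + -(c / h))

private theorem cutR_st_zero {c h y : ℝ} (hh : 0 < h) (hy : y ≤ c) : cutR_st c h y = 0 := by
  unfold cutR_st
  apply Real.smoothTransition.zero_of_nonpos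
  have : 1 / h * y + -(c / h) = (y - c) / h := by ring
  rw [this]
  exact div_nonpos_of_nonpos_of_nonneg (by linarith) hh.le

private theorem cutR_st_one {c h y : ℝ} (hh : 0 < h) (hy : c + h ≤ y) : cutR_st c h y = 1 := by
  unfold cutR_st
  apply Real.smoothTransition.one_of_one_le
  have : 1 / h * y + -(c / h) = (y - c) / h := by ring
  rw [this, le_div_iff₀ hh]
  linarith

private theorem cutR_st_Nl {n : ℕ} {C : ℝ} (hC : Nl (n + 2) C 1 Real.smoothTransition) {c h : ℝ} (hh : 0 < h) :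
    Nl (n + 2) C h (cutR_st c h) := by
  have h1 := hC.comp_affine (r := 1 / h) (by positivity) (-(c / h))
  rw [one_div_one_div] at h1
  exact h1

/-- the reversed step: `1` left of `c`, `0` right of `c + h` -/
private theorem cutR_rst_Nl {n : ℕ} {C : ℝ} (hC1 : 1 ≤ C) (hC : Nl (n + 2) C 1 Real.smoothTransition) {c h : ℝ}
    (hh : 0 < h) : Nl (n + 2) (2 * C) h (fun y => 1 - cutR_st c h y) := by
  have h1 := (cutR_const (n + 2) (B := C) (1 : ℝ) hh (by simpa using hC1)).sub (cutR_st_Nl hC (c := c) hh)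
  rwa [← two_mul] at h1

private theorem cutR_st_nonneg (c h y : ℝ) : 0 ≤ cutR_st c h y := Real.smoothTransition.nonneg _

private theorem cutR_st_le (c h y : ℝ) : cutR_st c h y ≤ 1 := Real.smoothTransition.le_one _

/-- The set theoretic part: everything follows from the values of the four maps. -/
private theorem cutR_comb {x w m α : ℝ} {H a b a' : Pm} {φ χ χ' ψ : ℝ → ℝ} (hw : 0 < w) (hm : 0 < m)
    (hα : 0 < α) (hαw : 24 * α ≤ w) (hαm : 2 * α ≤ m)
    (ha : ∀ t, a t = t + χ t * φ t) (ha' : ∀ t, a' t = t + χ' t * φ t)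
    (hb : ∀ t, b t = t + α * ψ t)
    (hχ1 : ∀ t ≤ x + 3 * w + w / 12, χ t = 1) (hχ0 : ∀ t, x + 3 * w + w / 6 ≤ t → χ t = 0)
    (hχn : ∀ t, 0 ≤ χ t) (hχl : ∀ t, χ t ≤ 1)
    (hχ' : ∀ t, x + 3 * w + w / 12 < t → χ' t = χ t)
    (hψ1 : ∀ t, x - m / 2 ≤ t → t ≤ x + 3 * w + w / 4 → ψ t = 1)
    (hψn : ∀ t, 0 ≤ ψ t) (hψl : ∀ t, ψ t ≤ 1)
    (hφ0 : ∀ y ≤ x, φ y = 0) (hφs : ∀ y, |φ y| ≤ w / 48)
    (hφr : ∀ y ≤ x + 4 * w, y + φ y = H (y + φ (y - α)))
    (hφp : ∀ y ∈ Icc (x + 2 * w + w / 8) (x + 4 * w - α), φ (y + α) = φ y)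
    (hH : Supp H (Icc x (x + 2 * w))) (s : ℝ) :
    ((cm a b)⁻¹ * H) s = s + (fun t => (χ (t + -α) - χ t) * φ t) (a'⁻¹ s) := by
  have hφs1 : ∀ y, -(w / 48) ≤ φ y := fun y => (abs_le.1 (hφs y)).1
  have hφs2 : ∀ y, φ y ≤ w / 48 := fun y => (abs_le.1 (hφs y)).2
  -- `a` fixes the points left of `x` and right of `x + 3w + w/6`
  have aL : ∀ t ≤ x, a t = t := fun t ht => by rw [ha, hφ0 t ht, mul_zero, add_zero]
  have aR : ∀ t, x + 3 * w + w / 6 ≤ t → a t = t := fun t ht => by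
    rw [ha, hχ0 t ht, zero_mul, add_zero]
  have aL2 : ∀ t, x < t → x < a t := by
    intro t ht
    by_contra hcon
    push Not at hcon
    have h1 := aL _ hcon
    have h2 := a.injective h1
    rw [h2] at hcon
    linarith
  have aR2 : ∀ t, t < x + 3 * w + w / 6 → a t < x + 3 * w + w / 6 := by
    intro t ht
    by_contra hcon
    push Not at hcon
    have h1 := aR _ hcon
    have h2 := a.injective h1
    rw [h2] at hcon
    linarith
  have b1 : ∀ t, x - m / 2 ≤ t → t ≤ x + 3 * w + w / 4 → b t = t + α := fun t h1 h2 => by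
    rw [hb, hψ1 t h1 h2, mul_one]
  have bge : ∀ t, t ≤ b t := fun t => by
    rw [hb]
    have := mul_nonneg hα.le (hψn t)
    linarith
  have ble : ∀ t, b t ≤ t + α := fun t => by
    rw [hb]
    have := mul_le_mul_of_nonneg_left (hψl t) hα.le
    linarith
  -- the conjugate
  have I1 : ∀ t, b (a (b⁻¹ t)) = t + χ (t + -α) * φ (t + -α) := by
    intro t
    have hbb : b (b⁻¹ t) = t := b.apply_symm_apply t
    rcases le_or_gt t x with h1 | h1
    · have h2 : b⁻¹ t ≤ x := by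
        have := bge (b⁻¹ t)
        rw [hbb] at this
        linarith
      rw [aL _ h2, hbb, hφ0 (t + -α) (by linarith), mul_zero, add_zero]
    · rcases le_or_gt (t + -α) (x + 3 * w + w / 4) with h2 | h2
      · have h3 : b (t + -α) = t := by
          rw [b1 _ (by linarith) h2]
          ring
        have h4 : b⁻¹ t = t + -α := by
          rw [← b.injective.eq_iff, hbb, h3]
        rw [h4]
        have h5 : x - m / 2 ≤ a (t + -α) ∧ a (t + -α) ≤ x + 3 * w + w / 4 := by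
          rcases le_or_gt (t + -α) x with h6 | h6
          · rw [aL _ h6]
            constructor <;> linarith
          · have h7 := aL2 _ h6
            rcases lt_or_ge (t + -α) (x + 3 * w + w / 6) with h8 | h8
            · have h9 := aR2 _ h8
              constructor <;> linarith
            · rw [aR _ h8]
              constructor <;> linarith
        rw [b1 _ h5.1 h5.2, ha]
        ring
      · have h3 : x + 3 * w + w / 6 ≤ b⁻¹ t := by
          have := ble (b⁻¹ t)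
          rw [hbb] at this
          linarith
        rw [aR _ h3, hbb, hχ0 _ (by linarith), zero_mul, add_zero]
  have Hfix : ∀ y, x + 2 * w < y → H y = y := fun y hy => hH y fun h => by
    have := h.2
    linarith
  have I2 : ∀ t ≤ x + 3 * w + w / 12, H (b (a (b⁻¹ t))) = a t := by
    intro t ht
    rw [I1, ha, hχ1 t ht, hχ1 (t + -α) (by linarith), one_mul, one_mul]
    have := hφr t (by linarith)
    rw [this]
    congr 2
  have I3 : ∀ t, x + 3 * w + w / 12 < t →
      b (a (b⁻¹ t)) = a t + (χ (t + -α) - χ t) * φ t := by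
    intro t ht
    rw [I1, ha]
    rcases lt_or_ge (t + -α) (x + 3 * w + w / 6) with h1 | h1
    · have h2 := hφp (t + -α) ⟨by linarith, by linarith⟩
      have h3 : t + -α + α = t := by ring
      rw [h3] at h2
      rw [← h2]
      ring
    · rw [hχ0 _ h1]
      ring
  have aBig : ∀ t, x + 3 * w + w / 12 < t → x + 2 * w < a t := by
    intro t ht
    rw [ha]
    have h1 : |χ t * φ t| ≤ w / 48 := by
      rw [abs_mul, abs_of_nonneg (hχn t)]
      calc χ t * |φ t| ≤ 1 * (w / 48) :=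
            mul_le_mul (hχl t) (hφs t) (abs_nonneg _) zero_le_one
        _ = w / 48 := one_mul _
    have := (abs_le.1 h1).1
    linarith
  -- the value of `e`
  have E : ∀ t, H s = a t → ((cm a b)⁻¹ * H) s = b (a (b⁻¹ t)) := by
    intro t ht
    have e1 : (cm a b)⁻¹ = b * a * b⁻¹ * a⁻¹ := by
      unfold cm
      group
    rw [e1]
    change b (a (b⁻¹ (a⁻¹ (H s)))) = _
    rw [ht]
    congr 3
    exact a.symm_apply_apply t
  obtain ⟨t, ht⟩ : ∃ t, H s = a t := ⟨a⁻¹ (H s), (a.apply_symm_apply _).symm⟩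
  obtain ⟨t', ht'⟩ : ∃ t', a'⁻¹ s = t' := ⟨_, rfl⟩
  have ht'2 : a' t' = s := by
    rw [← ht']
    exact a'.apply_symm_apply s
  rw [ht', E t ht]
  change b (a (b⁻¹ t)) = s + (χ (t' + -α) - χ t') * φ t'
  rcases le_or_gt t (x + 3 * w + w / 12) with h1 | h1
  · have h2 := I2 t h1
    rw [← ht] at h2
    have h3 := H.injective h2
    rw [h3]
    have h4 : t' ≤ x + 3 * w + w / 12 := by
      by_contra hcon
      push Not at hcon
      have h5 : a t' = s := by
        rw [ha, ← hχ' t' hcon, ← ha', ht'2]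
      have h6 := aBig t' hcon
      rw [h5] at h6
      have h7 := Hfix s h6
      rw [h7, ← h5] at ht
      have h8 := a.injective ht
      rw [h8] at hcon
      linarith
    rw [hχ1 t' h4, hχ1 (t' + -α) (by linarith), sub_self, zero_mul, add_zero]
  · have h2 := aBig t h1
    have h3 := Hfix (a t) h2
    have h4 : s = a t := by
      apply H.injective
      rw [ht, h3]
    have h5 : t' = t := by
      apply a'.injective
      rw [ht'2, h4, ha, ha', hχ' t h1]
    rw [h5, I3 t h1, ← h4]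

/-- Here `H = G k⁻¹` is supported in `[x, x + 2 w]`, `φ` is as in `os_holonomy`. With
`χ` smooth, `1` on `(-∞, x+3w+w/12]`, `0` on `[x+3w+w/6, ∞)` (size `(C, w)`), put
`a = id + χ φ`, `e = (id + χ_α φ) a⁻¹` where `χ_α y = χ (y - α)`, `b = id + α ψ` with `ψ = 1` on
`[x - m/4, x + 3 w + w/4 + …]`, supported in `(x - m, x + 3 w + w/2)`. Then
`H = (cm a b) e` (check at the points `a t`: `(b a b⁻¹) t = t + χ_α t φ (t - α)`), and
`disp e = ((χ_α - χ) φ) ∘ a⁻¹` has size `(C A (α/l)^5, α)`: right of `x + 2 w + w/16` we have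
`H = id`, so `φ y = φ (y - α)`; `periodic_bound` (`k = 5`, `x₀ = x + 2 w + w/8`) gives
`|φ⁽ⁱ⁾| ≤ M α^(5-i)`, `M = C₀ w A / (α l^5)`, for `y ∈ [x + 2 w + w/8, x + 4 w]`; in particular
`φ` is tiny there also at scale `α`: `M α^5 ≤ α / C`. Since `(χ_α - χ) φ` lives on `X'`, replace
`a` by `a' = id + χ' φ`, `χ' = χ` on `X'` and `χ' = 0` left of `x + 2 w + w/4` (`a = a'` near `X'`),
and use `Nl.mul`, `Nl.comp_id_add`, `exists_perm` at scale `α` for `a'`. -/
theorem os_cutoffR (n : ℕ) : ∃ C : ℝ, 1 ≤ C ∧ ∀ (C₀ x w m l α A : ℝ) (H : Pm) (φ : ℝ → ℝ), 1 ≤ C₀ →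
    0 < w → w ≤ 1 → 0 < m → m ≤ w → 0 < l → l ≤ w → 0 < α → C * α ≤ l → C * α ≤ m → 0 ≤ A →
    C * C₀ * w * A ≤ α * l →
    Nl (n + 1) (C₀ * A) l (disp H) → Nl (n + 1) (C₀ * A) l (disp H⁻¹) → Supp H (Icc x (x + 2 * w)) →
    Nl (n + 1) (C₀ * w * A / α) l φ → (∀ y ≤ x, φ y = 0) →
    (∀ y ≤ x + 4 * w, y + φ y = H (y + φ (y - α))) →
    φ (x + 2 * w + w / 8) = 0 →
    ∃ a b e : Pm, H = cm a b * e ∧
      Nl (n + 1) (C * C₀ * w * A / α) l (disp a) ∧ Supp a (Icc x (x + 3 * w + w / 4)) ∧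
      Nl (n + 1) (C * α) m (disp b) ∧ Supp b (Ioo (x - m) (x + 3 * w + w / 2)) ∧
      Nl (n + 1) (C * C₀ * A * (α / l) ^ (n + 1)) α (disp e) ∧
      Supp e (Icc (x + 3 * w) (x + 3 * w + w / 4)) := by
  obtain ⟨Cθ, hCθ1, hCθ⟩ := cutR_theta n
  obtain ⟨P, hP1, hP⟩ := exists_perm (n + 1) (by omega)
  obtain ⟨D, hD1, hD⟩ := Nl.diff (n + 1)
  obtain ⟨E, hE1, hE⟩ := Nl.comp_id_add (n + 1)
  obtain ⟨K₁, hK₁⟩ : ∃ K₁ : ℝ, K₁ = 12 ^ (n + 2) * (2 * Cθ) := ⟨_, rfl⟩
  have h12 : (1 : ℝ) ≤ 12 ^ (n + 2) := one_le_pow₀ (by norm_num)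
  have hK₁1 : 1 ≤ K₁ := by
    rw [hK₁]
    nlinarith
  obtain ⟨K₂, hK₂⟩ : ∃ K₂ : ℝ, K₂ = 2 ^ (n + 1) * K₁ * K₁ := ⟨_, rfl⟩
  have hK₂0 : 0 ≤ K₂ := by rw [hK₂]; positivity
  obtain ⟨K₃, hK₃⟩ : ∃ K₃ : ℝ, K₃ = 2 ^ (n + 1) * (2 ^ (n + 1) * Cθ) * (8 ^ (n + 1) * (2 * Cθ)) := ⟨_, rfl⟩
  have hK₃0 : 0 ≤ K₃ := by rw [hK₃]; positivity
  have hP0 : 0 ≤ P := by linarith
  have hD0 : 0 ≤ D := by linarith
  have hE0 : 0 ≤ E := by linarith
  obtain ⟨C, hC⟩ : ∃ C : ℝ, C = 48 + P * (2 ^ (n + 1) * K₁) + P * K₃ + P * (2 ^ (n + 1) * K₂) +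
    E * (2 ^ (n + 1) * (D * K₁)) := ⟨_, rfl⟩
  have q1 : 0 ≤ P * (2 ^ (n + 1) * K₁) := by positivity
  have q2 : 0 ≤ P * K₃ := by positivity
  have q3 : 0 ≤ P * (2 ^ (n + 1) * K₂) := by positivity
  have q4 : 0 ≤ E * (2 ^ (n + 1) * (D * K₁)) := by positivity
  have hC48 : 48 ≤ C := by rw [hC]; linarith
  have hC1 : P * (2 ^ (n + 1) * K₁) ≤ C := by rw [hC]; linarith
  have hC2 : P * K₃ ≤ C := by rw [hC]; linarith
  have hC3 : P * (2 ^ (n + 1) * K₂) ≤ C := by rw [hC]; linarith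
  have hC4 : E * (2 ^ (n + 1) * (D * K₁)) ≤ C := by rw [hC]; linarith
  have hC1' : 2 ^ (n + 1) * K₁ ≤ C := le_trans (by nlinarith [show (0:ℝ) ≤ 2 ^ (n + 1) * K₁ by positivity]) hC1
  have hC2' : K₃ ≤ C := le_trans (by nlinarith) hC2
  have hC0 : 0 < C := by linarith
  refine ⟨C, by linarith, ?_⟩
  intro C₀ x w m l α A H φ hC₀ hw hw1 hm hmw hl hlw hα hαl hαm hA hsmall hH _ hHs hφ hφ0 hφr hφz
  -- sizes
  have hC₀0 : 0 < C₀ := by linarith
  obtain ⟨S, hS⟩ : ∃ S : ℝ, S = C₀ * w * A / α := ⟨_, rfl⟩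
  have hS0 : 0 ≤ S := by rw [hS]; positivity
  have hSl : C * S ≤ l := by
    rw [hS, mul_div_assoc', div_le_iff₀ hα]
    linarith
  rw [← hS] at hφ
  have hα48 : 48 * α ≤ l := le_trans (mul_le_mul_of_nonneg_right hC48 hα.le) hαl
  have hα48m : 48 * α ≤ m := le_trans (mul_le_mul_of_nonneg_right hC48 hα.le) hαm
  have hS48 : 48 * S ≤ l := le_trans (mul_le_mul_of_nonneg_right hC48 hS0) hSl
  have hαl' : α ≤ l := by linarith
  have hαw : α ≤ w := by linarith
  obtain ⟨S', hS'⟩ : ∃ S' : ℝ, S' = S / l ^ (n + 1) * α ^ (n + 1) := ⟨_, rfl⟩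
  have hS'0 : 0 ≤ S' := by rw [hS']; positivity
  have hS'2 : S' = S * (α / l) ^ (n + 1) := by
    rw [hS', div_pow]
    ring
  have hCS' : C * S' ≤ α := by
    have hr0 : 0 ≤ α / l := by positivity
    have hr1 : α / l ≤ 1 := (div_le_one hl).2 hαl'
    have hr4 : (α / l) ^ n ≤ 1 := pow_le_one₀ hr0 hr1
    calc C * S' = (C * S) * (α / l) ^ (n + 1) := by rw [hS'2]; ring
      _ ≤ l * (α / l) ^ (n + 1) := mul_le_mul_of_nonneg_right hSl (by positivity)
      _ = α * (α / l) ^ n := by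
          rw [pow_succ]
          field_simp
      _ ≤ α * 1 := mul_le_mul_of_nonneg_left hr4 hα.le
      _ = α := mul_one α
  -- `φ` is bounded and periodic on the right
  have hφs : ∀ y, |φ y| ≤ w / 48 := by
    intro y
    have h1 := hφ.bound 0 (by omega) y
    rw [iteratedDeriv_zero, pow_zero, div_one] at h1
    linarith
  have hφp : ∀ y ∈ Icc (x + 2 * w + w / 8) (x + 4 * w - α), φ (y + α) = φ y := by
    intro y hy
    have h1 := hφr (y + α) (by linarith [hy.2])
    have h2 : y + α - α = y := by ring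
    rw [h2] at h1
    have h3 := (abs_le.1 (hφs y)).1
    have h4 : H (y + α + φ y) = y + α + φ y := hHs _ fun h => by linarith [h.2, hy.1]
    rw [h4] at h1
    linarith
  have hφb : ∀ i ≤ n + 1, ∀ y ∈ Icc (x + 2 * w + w / 8) (x + 4 * w - α + α),
      |iteratedDeriv i φ y| ≤ S / l ^ (n + 1) * α ^ (n + 1 - i) :=
    periodic_bound hα (by linarith) hφ.smooth hφp
      ⟨le_rfl, by linarith⟩ hφz fun y _ => hφ.bound (n + 1) le_rfl y
  have hφb2 : ∀ i ≤ n + 1, ∀ y ∈ Icc (x + 2 * w + w / 8) (x + 4 * w),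
      |iteratedDeriv i φ y| ≤ S' / α ^ i := by
    intro i hi y hy
    refine (hφb i hi y ⟨hy.1, by linarith [hy.2]⟩).trans (le_of_eq ?_)
    rw [hS', eq_div_iff (by positivity), mul_assoc, ← pow_add]
    congr 2
    omega
  -- the cut-off functions
  obtain ⟨χ, hχ⟩ : ∃ χ : ℝ → ℝ, χ = fun y => 1 - cutR_st (x + 3 * w + w / 12) (w / 12) y := ⟨_, rfl⟩
  obtain ⟨ζ, hζ⟩ : ∃ ζ : ℝ → ℝ, ζ = cutR_st (x + 2 * w + w / 4) (w / 4) := ⟨_, rfl⟩
  obtain ⟨ψ₁, hψ₁⟩ : ∃ ψ₁ : ℝ → ℝ, ψ₁ = cutR_st (x - m) (m / 2) := ⟨_, rfl⟩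
  obtain ⟨ψ₂, hψ₂⟩ : ∃ ψ₂ : ℝ → ℝ, ψ₂ = fun y => 1 - cutR_st (x + 3 * w + w / 4) (w / 8) y :=
    ⟨_, rfl⟩
  have hw12 : 0 < w / 12 := by positivity
  have hw4 : 0 < w / 4 := by positivity
  have hw8 : 0 < w / 8 := by positivity
  have hm2 : 0 < m / 2 := by positivity
  have hχ1 : ∀ t ≤ x + 3 * w + w / 12, χ t = 1 := fun t ht => by
    rw [hχ]
    simp only [cutR_st_zero hw12 ht, sub_zero]
  have hχ0 : ∀ t, x + 3 * w + w / 6 ≤ t → χ t = 0 := fun t ht => by
    rw [hχ]
    simp only [cutR_st_one hw12 (show x + 3 * w + w / 12 + w / 12 ≤ t by linarith), sub_self]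
  have hχn : ∀ t, 0 ≤ χ t := fun t => by
    rw [hχ]
    simp only [sub_nonneg]
    exact cutR_st_le _ _ _
  have hχl : ∀ t, χ t ≤ 1 := fun t => by
    rw [hχ]
    simp only [sub_le_self_iff]
    exact cutR_st_nonneg _ _ _
  have hζ0 : ∀ t ≤ x + 2 * w + w / 4, ζ t = 0 := fun t ht => by
    rw [hζ, cutR_st_zero hw4 ht]
  have hζ1 : ∀ t, x + 2 * w + w / 2 ≤ t → ζ t = 1 := fun t ht => by
    rw [hζ, cutR_st_one hw4 (by linarith)]
  have N_χ : Nl (n + 2) K₁ w χ := by
    rw [hK₁, hχ]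
    exact cutR_scale (c := 12) (cutR_rst_Nl hCθ1 hCθ hw12) (by norm_num) hw (by positivity)
  have N_ζ : Nl (n + 2) K₁ w ζ := by
    have h1 : Nl (n + 2) (4 ^ (n + 2) * Cθ) w ζ := by
      rw [hζ]
      exact cutR_scale (c := 4) (cutR_st_Nl hCθ hw4) (by norm_num) hw (by positivity)
    refine h1.mono le_rfl (by positivity) ?_ hw le_rfl
    rw [hK₁]
    have h412 : (4 : ℝ) ^ (n + 2) ≤ 12 ^ (n + 2) := pow_le_pow_left₀ (by norm_num) (by norm_num) _
    have h413 : (4 : ℝ) ^ (n + 2) * Cθ ≤ 12 ^ (n + 2) * Cθ :=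
      mul_le_mul_of_nonneg_right h412 (by linarith)
    have h414 : (0 : ℝ) ≤ 12 ^ (n + 2) * Cθ := by positivity
    linarith
  have N_χ' : Nl (n + 1) K₂ w (fun t => ζ t * χ t) := by
    rw [hK₂]
    exact (N_ζ.mono (by omega) (by positivity) le_rfl hw le_rfl).mul
      (N_χ.mono (by omega) (by positivity) le_rfl hw le_rfl) hw (by positivity) (by positivity)
  have N_ψ : Nl (n + 1) K₃ m (fun t => ψ₁ t * ψ₂ t) := by
    rw [hK₃]
    have h1 : Nl (n + 1) (2 ^ (n + 1) * Cθ) m ψ₁ := by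
      rw [hψ₁]
      exact cutR_scale (c := 2) ((cutR_st_Nl hCθ hm2).mono (by omega) (by positivity) le_rfl hm2
        le_rfl) (by norm_num) hm (by positivity)
    have h2 : Nl (n + 1) (8 ^ (n + 1) * (2 * Cθ)) w ψ₂ := by
      rw [hψ₂]
      exact cutR_scale (c := 8) ((cutR_rst_Nl hCθ1 hCθ hw8).mono (by omega) (by positivity) le_rfl
        hw8 le_rfl) (by norm_num) hw (by positivity)
    exact h1.mul (h2.mono le_rfl (by positivity) le_rfl hm hmw) hm (by positivity) (by positivity)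
  -- the permutation `a`
  have N_a : Nl (n + 1) (2 ^ (n + 1) * K₁ * S) l (fun t => χ t * φ t) :=
    (N_χ.mono (by omega) (by positivity) le_rfl hl hlw).mul hφ hl (by positivity) hS0
  obtain ⟨a, ha, -⟩ := hP (2 ^ (n + 1) * K₁ * S) l _ hl (by positivity) (by
    calc P * (2 ^ (n + 1) * K₁ * S) = P * (2 ^ (n + 1) * K₁) * S := by ring
      _ ≤ C * S := mul_le_mul_of_nonneg_right hC1 hS0
      _ ≤ l := hSl) N_a
  have hda : disp a = fun t => χ t * φ t := by
    ext t
    unfold disp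
    rw [ha]
    ring
  -- the permutation `b`
  have N_b : Nl (n + 1) (α * K₃) m (fun t => α * (ψ₁ t * ψ₂ t)) := by
    have h1 := N_ψ.const_mul α
    rwa [abs_of_pos hα] at h1
  obtain ⟨b, hb, -⟩ := hP (α * K₃) m _ hm (by positivity) (by
    calc P * (α * K₃) = P * K₃ * α := by ring
      _ ≤ C * α := mul_le_mul_of_nonneg_right hC2 hα.le
      _ ≤ m := hαm) N_b
  have hdb : disp b = fun t => α * (ψ₁ t * ψ₂ t) := by
    ext t
    unfold disp
    rw [hb]
    ring
  -- the permutation `a'`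
  have N_a' : Nl (n + 1) (2 ^ (n + 1) * K₂ * S') α (fun t => ζ t * χ t * φ t) :=
    cutR_mul (p := x + 2 * w + w / 8) (q := x + 4 * w) (p' := x + 2 * w + w / 4)
      (q' := x + 3 * w + w / 6) hα hS'0 hK₂0
      (N_χ'.mono le_rfl hK₂0 le_rfl hα hαw) hφ.smooth (by linarith) (by linarith) hφb2
      (fun y hy => by rw [hζ0 y hy, zero_mul]) (fun y hy => by rw [hχ0 y hy, mul_zero])
  have hPa' : P * (2 ^ (n + 1) * K₂ * S') ≤ α := by
    calc P * (2 ^ (n + 1) * K₂ * S') = P * (2 ^ (n + 1) * K₂) * S' := by ring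
      _ ≤ C * S' := mul_le_mul_of_nonneg_right hC3 hS'0
      _ ≤ α := hCS'
  obtain ⟨a', ha', hia'⟩ := hP (2 ^ (n + 1) * K₂ * S') α _ hα (by positivity) hPa' N_a'
  have hia2 : Nl (n + 1) α α (disp a'⁻¹) := hia'.mono le_rfl (by positivity) hPa' hα le_rfl
  -- the displacement of `e` before the composition
  obtain ⟨χd, hχd⟩ : ∃ χd : ℝ → ℝ, χd = fun t => χ (t + -α) - χ t := ⟨_, rfl⟩
  have N_d : Nl (n + 1) (D * K₁ * α / w) w χd := by
    rw [hχd]
    exact hD K₁ α w χ (fun _ => -α) hw (by positivity) hα.le hαw N_χ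
      (cutR_const (n + 1) (-α) hw (by rw [abs_neg, abs_of_pos hα]))
  have hχd0 : ∀ t ≤ x + 3 * w + w / 12, χd t = 0 := fun t ht => by
    rw [hχd]
    simp only [hχ1 t ht, hχ1 (t + -α) (by linarith), sub_self]
  have hχd1 : ∀ t, x + 3 * w + w / 6 + α ≤ t → χd t = 0 := fun t ht => by
    rw [hχd]
    simp only [hχ0 t (by linarith), hχ0 (t + -α) (by linarith), sub_self]
  have N_ρ : Nl (n + 1) (2 ^ (n + 1) * (D * K₁ * α / w) * S') α (fun t => χd t * φ t) :=
    cutR_mul (p := x + 2 * w + w / 8) (q := x + 4 * w) (p' := x + 3 * w + w / 12)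
      (q' := x + 3 * w + w / 6 + α) hα hS'0 (by positivity)
      (N_d.mono le_rfl (by positivity) le_rfl hα hαw) hφ.smooth (by linarith) (by linarith) hφb2
      hχd0 hχd1
  have N_e := hE (2 ^ (n + 1) * (D * K₁ * α / w) * S') α _ _ hα (by positivity) N_ρ hia2
  -- the combinatorial identity
  have key : ∀ s, ((cm a b)⁻¹ * H) s = s + (fun t => (χ (t + -α) - χ t) * φ t) (a'⁻¹ s) :=
    cutR_comb (χ' := fun t => ζ t * χ t) (ψ := fun t => ψ₁ t * ψ₂ t) hw hm hα (by linarith)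
      (by linarith) ha ha' hb hχ1 hχ0 hχn hχl
      (fun t ht => by simp only [hζ1 t (by linarith), one_mul])
      (fun t h1 h2 => by
        have h3 : ψ₁ t = 1 := by rw [hψ₁, cutR_st_one hm2 (by linarith)]
        have h4 : ψ₂ t = 1 := by
          rw [hψ₂]
          simp only [cutR_st_zero hw8 h2, sub_zero]
        simp only [h3, h4, mul_one])
      (fun t => by
        have h3 : 0 ≤ ψ₁ t := by rw [hψ₁]; exact cutR_st_nonneg _ _ _
        have h4 : 0 ≤ ψ₂ t := by
          rw [hψ₂]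
          simp only [sub_nonneg]
          exact cutR_st_le _ _ _
        exact mul_nonneg h3 h4)
      (fun t => by
        have h3 : ψ₁ t ≤ 1 := by rw [hψ₁]; exact cutR_st_le _ _ _
        have h3' : 0 ≤ ψ₁ t := by rw [hψ₁]; exact cutR_st_nonneg _ _ _
        have h4 : 0 ≤ ψ₂ t := by
          rw [hψ₂]
          simp only [sub_nonneg]
          exact cutR_st_le _ _ _
        have h5 : ψ₂ t ≤ 1 := by
          rw [hψ₂]
          simp only [sub_le_self_iff]
          exact cutR_st_nonneg _ _ _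
        calc ψ₁ t * ψ₂ t ≤ 1 * 1 := mul_le_mul h3 h5 h4 zero_le_one
          _ = 1 := one_mul 1)
      hφ0 hφs hφr hφp hHs
  refine ⟨a, b, (cm a b)⁻¹ * H, by rw [mul_inv_cancel_left], ?_, ?_, ?_, ?_, ?_, ?_⟩
  · rw [hda]
    refine N_a.mono le_rfl (by positivity) ?_ hl le_rfl
    calc 2 ^ (n + 1) * K₁ * S ≤ C * S := mul_le_mul_of_nonneg_right hC1' hS0
      _ = C * C₀ * w * A / α := by rw [hS]; ring
  · intro t ht
    rw [mem_Icc, not_and_or, not_le, not_le] at ht
    rw [ha]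
    rcases ht with ht | ht
    · rw [hφ0 t ht.le, mul_zero, add_zero]
    · rw [hχ0 t (by linarith), zero_mul, add_zero]
  · rw [hdb]
    refine N_b.mono le_rfl (by positivity) ?_ hm le_rfl
    calc α * K₃ ≤ α * C := mul_le_mul_of_nonneg_left hC2' hα.le
      _ = C * α := mul_comm _ _
  · intro t ht
    rw [mem_Ioo, not_and_or, not_lt, not_lt] at ht
    rw [hb]
    rcases ht with ht | ht
    · have h3 : ψ₁ t = 0 := by rw [hψ₁, cutR_st_zero hm2 ht]
      rw [h3, zero_mul, mul_zero, add_zero]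
    · have h4 : ψ₂ t = 0 := by
        rw [hψ₂]
        simp only [cutR_st_one hw8 (show x + 3 * w + w / 4 + w / 8 ≤ t by linarith), sub_self]
      rw [h4, mul_zero, mul_zero, add_zero]
  · have hde : disp ((cm a b)⁻¹ * H) = fun s => (fun t => χd t * φ t) (s + disp a'⁻¹ s) := by
      ext s
      unfold disp
      rw [key s, hχd]
      have h1 : s + (a'⁻¹ s - s) = a'⁻¹ s := by ring
      rw [h1]
      ring
    rw [hde]
    refine N_e.mono le_rfl (by positivity) ?_ hα le_rfl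
    have h2 : 2 ^ (n + 1) * (D * K₁ * α / w) * S' = 2 ^ (n + 1) * (D * K₁) * (C₀ * A * (α / l) ^ (n + 1)) := by
      rw [hS'2, hS]
      field_simp
    rw [h2]
    calc E * (2 ^ (n + 1) * (D * K₁) * (C₀ * A * (α / l) ^ (n + 1)))
        = E * (2 ^ (n + 1) * (D * K₁)) * (C₀ * A * (α / l) ^ (n + 1)) := by ring
      _ ≤ C * (C₀ * A * (α / l) ^ (n + 1)) := mul_le_mul_of_nonneg_right hC4 (by positivity)
      _ = C * C₀ * A * (α / l) ^ (n + 1) := by ring
  · intro s hs
    rw [key s]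
    have hd0 : ∀ t, |ζ t * χ t * φ t| ≤ α := by
      intro t
      have h1 := N_a'.bound 0 (by omega) t
      rw [iteratedDeriv_zero, pow_zero, div_one] at h1
      refine h1.trans (le_trans ?_ hPa')
      exact le_mul_of_one_le_left (by positivity) hP1
    obtain ⟨t', ht'⟩ : ∃ t', a'⁻¹ s = t' := ⟨_, rfl⟩
    have ht'2 : a' t' = s := by
      rw [← ht']
      exact a'.apply_symm_apply s
    rw [ht']
    have h0 : χ (t' + -α) - χ t' = 0 := by
      have h3 : (χ (t' + -α) - χ t') = χd t' := by rw [hχd]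
      rw [h3]
      by_contra hne
      have h4 : x + 3 * w + w / 12 < t' := by
        by_contra hcon
        push Not at hcon
        exact hne (hχd0 t' hcon)
      have h5 : t' < x + 3 * w + w / 6 + α := by
        by_contra hcon
        push Not at hcon
        exact hne (hχd1 t' hcon)
      apply hs
      rw [ha'] at ht'2
      have h6 := abs_le.1 (hd0 t')
      rw [mem_Icc]
      constructor <;> linarith [h6.1, h6.2]
    change s + (χ (t' + -α) - χ t') * φ t' = s
    rw [h0, zero_mul, add_zero]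

end GD31
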