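import Pool.Agent.LibCHr11.HolR
import Pool.Agent.LibCHr11.CutR

/-! # OS4: one step

Geometry (`x` base point, `w` window length): content `X = [x, x+w]`, kick window
`K = [x+w, x+2w]`, free room `[x+2w, x+3w]`, next window `X' = [x+3w, x+3w+w/4]`. -/

open Filter Topology Set

namespace GD31

private theorem stepR_mono {k : ℕ} {A B l : ℝ} {f : ℝ → ℝ} (h : Nl k A l f) (hl : 0 < l)
    (hAB : A ≤ B) : Nl k B l f :=
  ⟨h.smooth, fun i hi x => (h.bound i hi x).trans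
    (div_le_div_of_nonneg_right hAB (pow_pos hl i).le)⟩

private theorem stepR_inv {F : Pm} {x : ℝ} (h : F x = x) : F⁻¹ x = x := by
  rw [Equiv.Perm.inv_eq_iff_eq, h]

private theorem stepR_cm {D S : Pm} {K : Set ℝ} (hD : Supp D K) (hS : Supp S K) :
    Supp (cm D S) K := by
  intro x hx
  have h1 := hD x hx
  have h2 := hS x hx
  show D (S (D⁻¹ (S⁻¹ x))) = x
  rw [stepR_inv h2, stepR_inv h1, h2, h1]

theorem one_stepR (n : ℕ) : ∃ C : ℝ, 1 ≤ C ∧ ∀ (x w m l α A d : ℝ) (G : Pm), 0 < w → w ≤ 1 → 0 < m →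
    m ≤ w → 0 < l → l ≤ w → 0 < α → C * α ≤ l → C * α ≤ m → 0 < d → C * d ≤ 1 → 0 ≤ A →
    C * w * A ≤ α * l → C * A ≤ d * w →
    Nl (n + 1) A l (disp G) → Supp G (Icc x (x + w)) →
    ∃ a b D S e : Pm, G = cm a b * cm D S * e ∧
      Nl (n + 1) (C * w * A / α) l (disp a) ∧ Supp a (Icc x (x + 3 * w + w / 4)) ∧
      Nl (n + 1) (C * α) m (disp b) ∧ Supp b (Ioo (x - m) (x + 3 * w + w / 2)) ∧
      Nl (n + 1) (C * d * w) w (disp D) ∧ Supp D (Icc (x + w) (x + 2 * w)) ∧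
      Nl (n + 1) (C * A / d) w (disp S) ∧ Supp S (Icc (x + w) (x + 2 * w)) ∧
      Nl (n + 1) (C * A * (α / l) ^ (n + 1)) α (disp e) ∧ Supp e (Icc (x + 3 * w) (x + 3 * w + w / 4)) := by
  obtain ⟨C₁, hC₁, h1⟩ := os_holonomyR n
  obtain ⟨C₂, hC₂, h2⟩ := os_cutoffR n
  have hC₁0 : 0 < C₁ := by linarith
  have hC₂0 : 0 < C₂ := by linarith
  have hle1 : C₁ ≤ C₁ * C₂ := by nlinarith
  have hle2 : C₂ ≤ C₁ * C₂ := by nlinarith
  refine ⟨C₁ * C₂, by linarith, ?_⟩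
  intro x w m l α A d G hw hw1 hm hmw hl hlw hα hCl hCm hd hCd hA hwA hAd hG hGs
  have hwA0 : 0 ≤ w * A := mul_nonneg hw.le hA
  obtain ⟨D, S, φ, hD, hDn, hS, hSn, hH, hH', hφ, hφ0, hφe, hφz⟩ :=
    h1 x w l α A d G hw hw1 hl hlw hα
      ((mul_le_mul_of_nonneg_right hle1 hα.le).trans hCl) hd
      ((mul_le_mul_of_nonneg_right hle1 hd.le).trans hCd) hA
      (by nlinarith) ((mul_le_mul_of_nonneg_right hle1 hA).trans hAd) hG hGs
  have hk : Supp (cm D S) (Icc (x + w) (x + 2 * w)) := stepR_cm hD hS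
  have hHs : Supp (G * (cm D S)⁻¹) (Icc x (x + 2 * w)) := by
    intro y hy
    have hy1 : y ∉ Icc (x + w) (x + 2 * w) := fun h => hy ⟨by linarith [h.1], h.2⟩
    have hy2 : y ∉ Icc x (x + w) := fun h => hy ⟨h.1, by linarith [h.2]⟩
    rw [Equiv.Perm.mul_apply, stepR_inv (hk y hy1), hGs y hy2]
  obtain ⟨a, b, e, hab, ha, has, hb, hbs, he, hes⟩ :=
    h2 C₁ x w m l α A (G * (cm D S)⁻¹) φ hC₁ hw hw1 hm hmw hl hlw hα
      ((mul_le_mul_of_nonneg_right hle2 hα.le).trans hCl)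
      ((mul_le_mul_of_nonneg_right hle2 hα.le).trans hCm) hA
      (by rw [mul_comm C₂ C₁]; exact hwA) hH hH' hHs hφ hφ0 hφe hφz
  have hcomm : e * cm D S = cm D S * e := by
    have hdis : Equiv.Perm.Disjoint e (cm D S) := by
      intro y
      by_cases hy : y ∈ Icc (x + w) (x + 2 * w)
      · left
        exact hes y fun h => by linarith [h.1, hy.2]
      · right
        exact hk y hy
    exact hdis.commute
  refine ⟨a, b, D, S, e, ?_, ?_, has, ?_, hbs, ?_, hD, ?_, hS, ?_, hes⟩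
  · rw [mul_assoc, ← hcomm, ← mul_assoc, ← hab, inv_mul_cancel_right]
  · rw [mul_comm C₁ C₂]
    exact ha
  · exact stepR_mono hb hm (mul_le_mul_of_nonneg_right hle2 hα.le)
  · exact stepR_mono hDn hw (mul_le_mul_of_nonneg_right
      (mul_le_mul_of_nonneg_right hle1 hd.le) hw.le)
  · exact stepR_mono hSn hw (div_le_div_of_nonneg_right
      (mul_le_mul_of_nonneg_right hle1 hA) hd.le)
  · rw [mul_comm C₁ C₂]
    exact he

end GD31
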