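import Pool.Agent.LibGD31.OS2
import Pool.Agent.LibCHr11.KickR

/-! General order version of the holonomy lemma. -/

open Filter Topology Set

namespace GD31

theorem os_holonomyR (n : ℕ) : ∃ C : ℝ, 1 ≤ C ∧ ∀ (x w l α A d : ℝ) (G : Pm), 0 < w → w ≤ 1 → 0 < l →
    l ≤ w → 0 < α → C * α ≤ l → 0 < d → C * d ≤ 1 → 0 ≤ A → C * w * A ≤ α * l →
    C * A ≤ d * w →
    Nl (n + 1) A l (disp G) → Supp G (Icc x (x + w)) →
    ∃ (D S : Pm) (φ : ℝ → ℝ),
      Supp D (Icc (x + w) (x + 2 * w)) ∧ Nl (n + 1) (C * d * w) w (disp D) ∧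
      Supp S (Icc (x + w) (x + 2 * w)) ∧ Nl (n + 1) (C * A / d) w (disp S) ∧
      Nl (n + 1) (C * A) l (disp (G * (cm D S)⁻¹)) ∧ Nl (n + 1) (C * A) l (disp (G * (cm D S)⁻¹)⁻¹) ∧
      Nl (n + 1) (C * w * A / α) l φ ∧ (∀ y ≤ x, φ y = 0) ∧
      (∀ y ≤ x + 4 * w, y + φ y = (G * (cm D S)⁻¹) (y + φ (y - α))) ∧
      φ (x + 2 * w + w / 8) = 0 := by
  obtain ⟨Ck, hCk, hkick⟩ := kickR n
  obtain ⟨Cm, hCm, hmul⟩ := Nl.mul_perm (n + 1)
  obtain ⟨Cp, hCp, hperm⟩ := exists_perm (n + 1) (by omega)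
  obtain ⟨Cb, hCb, hit⟩ := it_bound (n + 1)
  obtain ⟨E, hE⟩ : ∃ E : ℝ, E = Cm + 128 * Ck + Cm * (128 * Ck) + Cp := ⟨_, rfl⟩
  have hCmk : 0 ≤ Cm * (128 * Ck) := by positivity
  have hE0 : 1 ≤ E := by
    rw [hE]
    linarith
  have hE1 : Cm + 128 * Ck ≤ E := by
    rw [hE]
    linarith
  have hE2 : Cm * (128 * Ck) + Cp ≤ E := by
    rw [hE]
    linarith
  have hE3 : Cp ≤ E := by linarith
  have hCbE : 1 ≤ Cb * E := one_le_mul_of_one_le_of_one_le hCb hE0
  obtain ⟨C, hC⟩ : ∃ C : ℝ, C = 4096 + 128 * Ck + 2 * E + 56 * (Cb * E) := ⟨_, rfl⟩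
  have hC1 : 4096 ≤ C := by rw [hC]; linarith
  have hC2 : 128 * Ck ≤ C := by rw [hC]; linarith
  have hC3 : 2 * E ≤ C := by rw [hC]; linarith
  have hC4 : 56 * (Cb * E) ≤ C := by rw [hC]; linarith
  refine ⟨C, by linarith, fun x w l α A d G hw hw1 hl hlw hα hCα hd hCd hA hCwA hCAd hG hGs => ?_⟩
  have h4096 : 4096 * α ≤ C * α := mul_le_mul_of_nonneg_right hC1 hα.le
  have hαw : 96 * α ≤ w := by linarith
  have hαl : α ≤ l := by linarith
  have hαlw : α * l ≤ α * w := mul_le_mul_of_nonneg_left hlw hα.le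
  have hCA : C * A ≤ α := by
    have h1 : C * A * w ≤ α * w := by
      have h2 : C * A * w = C * w * A := by ring
      linarith
    exact le_of_mul_le_mul_right h1 hw
  have hA1 : 4096 * A ≤ α := (mul_le_mul_of_nonneg_right hC1 hA).trans hCA
  have hA2 : 128 * Ck * A ≤ α := (mul_le_mul_of_nonneg_right hC2 hA).trans hCA
  have hA3 : E * A ≤ α / 2 := by
    have h1 := (mul_le_mul_of_nonneg_right hC3 hA).trans hCA
    linarith
  have hA4 : Cp * A ≤ α := by
    have h1 := mul_le_mul_of_nonneg_right hE3 hA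
    linarith
  have hA5 : 56 * (Cb * E) * (w * A) ≤ α * w := by
    have h1 := mul_le_mul_of_nonneg_right hC4 (mul_nonneg hw.le hA)
    have h2 : C * (w * A) = C * w * A := by ring
    linarith
  have hA6 : 128 * Ck * A ≤ d * w := (mul_le_mul_of_nonneg_right hC2 hA).trans hCAd
  have hCkC : Ck ≤ C := by linarith
  have hCkd : Ck * d ≤ 1 := (mul_le_mul_of_nonneg_right hCkC hd.le).trans hCd
  obtain ⟨D, S, hDs, hDn, hS, hcont⟩ := hkick (x + 3 * w / 2) w d hw hd hCkd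
  have hI : Icc (x + 3 * w / 2 - w / 2) (x + 3 * w / 2 + w / 2) = Icc (x + w) (x + 2 * w) := by
    congr 1 <;> ring
  rw [hI] at hDs
  have hdw : 0 < d * w := mul_pos hd hw
  obtain ⟨s₁, hs₁⟩ : ∃ s₁ : ℝ, s₁ = 128 * A / (d * w) := ⟨_, rfl⟩
  have hs₁0 : 0 ≤ s₁ := by
    rw [hs₁]
    positivity
  have hs₁d : d * s₁ * w = 128 * A := by
    rw [hs₁]
    field_simp
  have hCks : Ck * s₁ ≤ 1 := by
    rw [hs₁, ← mul_div_assoc, div_le_one hdw]
    have h1 : Ck * (128 * A) = 128 * Ck * A := by ring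
    linarith
  have hCks' : ∀ s : ℝ, |s| ≤ s₁ → Ck * |s| ≤ 1 := fun s hs =>
    (mul_le_mul_of_nonneg_left hs (by linarith)).trans hCks
  obtain ⟨N, hN⟩ : ∃ N : ℕ, N = ⌈5 * w / α⌉₊ + 1 := ⟨_, rfl⟩
  have hN1 : 5 * w ≤ ((N : ℝ) - 1) * α := by
    have h1 := Nat.le_ceil (5 * w / α)
    rw [div_le_iff₀ hα] at h1
    rw [hN]
    push_cast
    rw [add_sub_cancel_right]
    exact h1
  have hN2 : (N : ℝ) ≤ 7 * w / α := by
    have h1 := (Nat.ceil_lt_add_one (by positivity : 0 ≤ 5 * w / α)).le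
    have h2 : 2 ≤ 2 * w / α := by
      rw [le_div_iff₀ hα]
      linarith
    have h3 : 7 * w / α = 5 * w / α + 2 * w / α := by ring
    rw [hN, h3]
    push_cast
    linarith
  have hDG : Differentiable ℝ (disp G) := hG.smooth.differentiable (by simp)
  have hGc : Continuous (disp G) := hDG.continuous
  have hGcont : Continuous (G : ℝ → ℝ) := by
    have h1 : (G : ℝ → ℝ) = fun z => z + disp G z := by
      funext z
      unfold disp
      ring
    rw [h1]
    exact continuous_id.add hGc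
  have hG0 : ∀ z, |disp G z| ≤ A := ck4_abs hG
  have hCpA : Cp * A ≤ l := by linarith
  have hGinv : Nl (n + 1) (Cp * A) l (disp G⁻¹) := by
    obtain ⟨F, hF, hF'⟩ := hperm A l (disp G) hl hA hCpA hG
    have h1 : F = G := by
      ext z
      rw [hF]
      unfold disp
      ring
    rwa [h1] at hF'
  -- all strengths
  have hfact : ∀ s : ℝ, |s| ≤ s₁ →
      Supp (S s) (Icc (x + w) (x + 2 * w)) ∧ Nl (n + 1) (C * A / d) w (disp (S s)) ∧
      Nl (n + 1) (E * A) l (disp (G * (cm D (S s))⁻¹)) ∧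
      Nl (n + 1) (E * A) l (disp (G * (cm D (S s))⁻¹)⁻¹) ∧
      Nl (n + 1) (7 * (Cb * E) * w * A / α) l (it α (disp (G * (cm D (S s))⁻¹)) N) ∧
      Continuous (disp (cm D (S s))) := by
    intro s hs
    have h1 : Ck * |s| ≤ 1 := hCks' s hs
    obtain ⟨hSs, hSn, hkn, hkin, -, -, -⟩ := hS s h1
    rw [hI] at hSs
    have h2 : Ck * |s| * d * w ≤ 128 * Ck * A := by
      calc Ck * |s| * d * w = Ck * (|s| * (d * w)) := by ring
        _ ≤ Ck * (s₁ * (d * w)) := by gcongr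
        _ = Ck * (d * s₁ * w) := by ring
        _ = 128 * Ck * A := by rw [hs₁d]; ring
    have h3 : 0 ≤ Ck * |s| * d * w := by positivity
    have h4 : 128 * Ck * A ≤ l := by linarith
    have hkn' : Nl (n + 1) (128 * Ck * A) l (disp (cm D (S s))) := hkn.mono le_rfl h3 h2 hl hlw
    have hkin' : Nl (n + 1) (128 * Ck * A) l (disp (cm D (S s))⁻¹) := hkin.mono le_rfl h3 h2 hl hlw
    have hH : Nl (n + 1) (E * A) l (disp (G * (cm D (S s))⁻¹)) := by
      have h5 := hmul A (128 * Ck * A) l G (cm D (S s))⁻¹ hl hA (by positivity) h4 hG hkin'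
      refine h5.mono le_rfl (by positivity) ?_ hl le_rfl
      have h6 := mul_le_mul_of_nonneg_right hE1 hA
      linarith
    have hH' : Nl (n + 1) (E * A) l (disp (G * (cm D (S s))⁻¹)⁻¹) := by
      have h5 := hmul (128 * Ck * A) (Cp * A) l (cm D (S s)) G⁻¹ hl (by positivity)
        (by positivity) hCpA hkn' hGinv
      have h6 : (G * (cm D (S s))⁻¹)⁻¹ = cm D (S s) * G⁻¹ := by
        rw [mul_inv_rev, inv_inv]
      rw [h6]
      refine h5.mono le_rfl (by positivity) ?_ hl le_rfl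
      have h7 := mul_le_mul_of_nonneg_right hE2 hA
      have h8 : Cm * (128 * Ck * A) + Cp * A = (Cm * (128 * Ck) + Cp) * A := by ring
      linarith
    have h7 : Cb * N * (E * A) ≤ 7 * (Cb * E) * w * A / α := by
      calc Cb * N * (E * A) = (Cb * E * A) * N := by ring
        _ ≤ (Cb * E * A) * (7 * w / α) := by gcongr
        _ = _ := by ring
    have h8 : 7 * (Cb * E) * w * A / α ≤ l := by
      rw [div_le_iff₀ hα]
      have h9 : 0 ≤ (Cb * E) * (w * A) := by positivity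
      have h10 := mul_le_mul_of_nonneg_right hC4 (mul_nonneg hw.le hA)
      have h11 : C * (w * A) = C * w * A := by ring
      have h12 : 7 * (Cb * E) * w * A = 7 * ((Cb * E) * (w * A)) := by ring
      have h13 : 56 * (Cb * E) * (w * A) = 56 * ((Cb * E) * (w * A)) := by ring
      have h14 : l * α = α * l := mul_comm _ _
      linarith
    have hφ := hit (E * A) l α (disp (G * (cm D (S s))⁻¹)) N hl (by positivity)
      (h7.trans h8) hH
    refine ⟨hSs, ?_, hH, hH', hφ.mono le_rfl (by positivity) h7 hl le_rfl,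
      (hkn.smooth.differentiable (by simp)).continuous⟩
    refine hSn.mono le_rfl (by positivity) ?_ hw le_rfl
    calc Ck * |s| * w ≤ Ck * s₁ * w := by gcongr
      _ = 128 * Ck * A / d := by
        rw [hs₁]
        field_simp
      _ ≤ C * A / d := by gcongr
  have hφ8 : 7 * (Cb * E) * w * A / α ≤ w / 8 := by
    rw [div_le_iff₀ hα]
    have h1 : 7 * (Cb * E) * w * A = 56 * (Cb * E) * (w * A) / 8 := by ring
    have h2 : w / 8 * α = α * w / 8 := by ring
    linarith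
  -- sign at the two ends
  have hsgn : ∀ s σ : ℝ, |s| ≤ s₁ → |σ| ≤ 1 → (∀ z, 0 ≤ σ * (cm D (S s) z - z)) →
      σ * s = s₁ → σ * it α (disp (G * (cm D (S s))⁻¹)) N (x + 2 * w + w / 8) ≤ 0 := by
    intro s σ hs hσ hsign hσs
    obtain ⟨hSs, -, hH, -, hφ, hkc⟩ := hfact s hs
    have h1 : Ck * |s| ≤ 1 := hCks' s hs
    obtain ⟨-, -, -, -, -, -, hplat⟩ := hS s h1
    refine os2_sign (κ := 128 * A) (q := d * s * w) hw hα hA hσ hαw hN1 hG0 hGc hkc hGs
      (os2_supp_cm hDs hSs) hsign (fun z hz => ?_) ?_ ?_ rfl (fun Y => ?_) ?_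
    · exact hplat z hz
    · have h2 : |d * s * w| ≤ 128 * A := by
        rw [abs_mul, abs_mul, abs_of_pos hd, abs_of_pos hw, ← hs₁d]
        gcongr
      have h3 : 128 * A ≤ w / 32 := by linarith
      exact h2.trans h3
    · rw [← hs₁d, ← hσs]
      ring
    · exact (ck4_abs hH Y).trans hA3
    · exact (ck4_abs hφ _).trans hφ8
  have hcf : ContinuousOn (fun s : ℝ => it α (disp (G * (cm D (S s))⁻¹)) N
      (x + 2 * w + w / 8)) (Icc (-s₁) s₁) := by
    have h3 : -1 / Ck ≤ -s₁ := by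
      rw [div_le_iff₀ (by linarith)]
      linarith
    have h4 : s₁ ≤ 1 / Ck := by
      rw [le_div_iff₀ (by linarith)]
      linarith
    exact os2_cont' hGcont hcont N h3 h4 (x + 2 * w + w / 8)
  have hpos : it α (disp (G * (cm D (S s₁))⁻¹)) N (x + 2 * w + w / 8) ≤ 0 := by
    have h1 : |s₁| ≤ s₁ := by rw [abs_of_nonneg hs₁0]
    obtain ⟨-, -, -, -, hge, -, -⟩ := hS s₁ (by rw [abs_of_nonneg hs₁0]; exact hCks)
    have h2 := hsgn s₁ 1 h1 (by rw [abs_one]) (fun z => by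
      have := hge hs₁0 z
      linarith) (one_mul _)
    rwa [one_mul] at h2
  have hneg : 0 ≤ it α (disp (G * (cm D (S (-s₁)))⁻¹)) N (x + 2 * w + w / 8) := by
    have h1 : |(-s₁)| ≤ s₁ := by rw [abs_neg, abs_of_nonneg hs₁0]
    obtain ⟨-, -, -, -, -, hle, -⟩ := hS (-s₁) (by rw [abs_neg, abs_of_nonneg hs₁0]; exact hCks)
    have h2 := hsgn (-s₁) (-1) h1 (by rw [abs_neg, abs_one]) (fun z => by
      have := hle (by linarith) z
      linarith) (by ring)
    linarith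
  obtain ⟨s, hsI, hs0⟩ := intermediate_value_Icc' (by linarith : -s₁ ≤ s₁) hcf ⟨hpos, hneg⟩
  have hsa : |s| ≤ s₁ := abs_le.2 hsI
  obtain ⟨hSs, hSn, hH, hH', hφ, hkc⟩ := hfact s hsa
  have hγ0 : ∀ y ≤ x, disp (G * (cm D (S s))⁻¹) y = 0 := by
    intro y hy
    have h1 : (cm D (S s))⁻¹ y = y :=
      os2_inv_fix (os2_fix hkc (os2_supp_cm hDs hSs) y (Or.inl (by linarith)))
    have h2 : G y = y := os2_fix hGc hGs y (Or.inl hy)
    unfold disp
    rw [Equiv.Perm.mul_apply, h1, h2, sub_self]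
  have hEC' : E ≤ C := by linarith
  have hEC : E * A ≤ C * A := mul_le_mul_of_nonneg_right hEC' hA
  refine ⟨D, S s, it α (disp (G * (cm D (S s))⁻¹)) N, hDs, ?_, hSs, hSn,
    hH.mono le_rfl (by positivity) hEC hl le_rfl, hH'.mono le_rfl (by positivity) hEC hl le_rfl,
    ?_, os2_zero hα.le hγ0 N, fun y hy => ?_, hs0⟩
  · exact hDn.mono le_rfl (by positivity) (by gcongr) hw le_rfl
  · refine hφ.mono le_rfl (by positivity) ?_ hl le_rfl
    gcongr
    linarith
  · have h1 : it α (disp (G * (cm D (S s))⁻¹)) (N + 1) y =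
        it α (disp (G * (cm D (S s))⁻¹)) N y := os2_stab hγ0 N y (by linarith)
    rw [← h1]
    exact os2_step α _ N y

end GD31
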